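import Pool.Agent.Lib_helper17.CR.DefsF
import Pool.Agent.Lib_helper17.CRF.E_EK

/-!
# Rubin's conjecture for abelian extensions of any degree of Kummer type
-/

namespace Pool.Agent.Results.MP_dd9835_nt.CompositeRubin

open Pool.Agent Pool.Agent.RSK Pool.Agent.RS3 Pool.Agent.SY Pool.Agent.CR NumberField
  IsDedekindDomain

/-- Let `H/F` be an abelian extension of number fields of any degree for which one of the following
holds: `Gal(H/F₀)` is a holomorph-type semidirect product of `Gal(H/F)` and `(ℤ/m)ˣ` for some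
`F₀ ⊆ F`; `H/F` is a Kummer extension defined over a number field `F₀` with `F = F₀(ζ)`; `H/F` is
cyclic and `H/F₀` has as Galois group a product of symmetric groups; `H/F` has `p`-power degree and
every cyclic extension `K/F` inside `H` has an action of `(ℤ/p^m)ˣ`, `[K : F] ∣ p ^ m`, with
`θ a ∘ σ = σ ^ a ∘ θ a` for `σ ∈ Gal(K/F)`. For all data `S, T, r, w_i` as in Rubin's conjecture
there is an element `u = e_r u` with `(w_1^* ∧ … ∧ w_r^*)(λ(u)) = Θ` such that `a u` lies in Rubin's
lattice for all `a ∈ admE ι S w`. -/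
theorem result {F H : Type} [Field F] [NumberField F] [Field H] [NumberField H] [Algebra F H]
    [IsGalois F H] {G : Type} [CommGroup G] [Fintype G] (ι : G ≃* (H ≃ₐ[F] H))
    (S T : Finset (HeightOneSpectrum (𝓞 F))) {r : ℕ} (w : Fin r → Pl H)
    (fr : HeightOneSpectrum (𝓞 F) → G) (hD : Data ι S T r w fr)
    (hext : HolT F H ∨ KumN F H ∨ SymC F H ∨ ∃ p : ℕ, p.Prime ∧ IsPGroup p G ∧
      ∀ N : Subgroup G, IsCyclic (G ⧸ N) → Hol3 p N.index F (Kf ι N)) :
    CRF.RubinOn (admE ι S w) ι S T w fr := by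
  refine CRF.rubinOn_of (betaE_fam ι S T w fr hD ?_)
  rcases hext with h | h | h | h
  · exact Or.inl h
  · exact Or.inr (Or.inl h)
  · exact Or.inr (Or.inr (Or.inl h))
  · exact Or.inr (Or.inr (Or.inr (Or.inr h)))

end Pool.Agent.Results.MP_dd9835_nt.CompositeRubin
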