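import Pool.Agent.Lib_helper17.CR.DefsF
import Pool.Agent.Lib_helper17.HM.Fin

/-!
# Rubin's conjecture for abelian extensions whose cyclic subextensions are of holomorph type
-/

namespace Pool.Agent.Results.MP_dd9835_nt.HolomorphRubin

open Pool.Agent Pool.Agent.RSK Pool.Agent.CR NumberField IsDedekindDomain

/-- Let `H/F` be an abelian extension of number fields of any degree such that either every cyclic
extension `K/F` inside `H` is of holomorph type (`HolM`: for some multiple `M` of `[K : F]` the
group `(ℤ/M)ˣ` acts on the field `K` with `θ a ∘ σ = σ ^ a ∘ θ a` for `σ ∈ Gal(K/F)`, and `θ a` is in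
`Gal(K/F)` only for `a = 1`), or `H` is Galois over a number field `F₀ ⊆ F` and `Gal(H/F₀)` is
isomorphic to a product of symmetric groups. For all data `S, T, r, w_i` as in Rubin's conjecture
there is an element `u = e_r u` with `(w_1^* ∧ … ∧ w_r^*)(λ(u)) = Θ` such that `a u` lies in Rubin's
lattice for all `a ∈ admE ι S w`. -/
theorem result {F H : Type} [Field F] [NumberField F] [Field H] [NumberField H] [Algebra F H]
    [IsGalois F H] {G : Type} [CommGroup G] [Fintype G] (ι : G ≃* (H ≃ₐ[F] H))
    (S T : Finset (HeightOneSpectrum (𝓞 F))) {r : ℕ} (w : Fin r → Pl H)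
    (fr : HeightOneSpectrum (𝓞 F) → G) (hD : Data ι S T r w fr)
    (hext : (∀ N : Subgroup G, IsCyclic (G ⧸ N) → HM.HolM F (Kf ι N)) ∨ HM.SymP F H) :
    CRF.RubinOn (admE ι S w) ι S T w fr :=
  HM.fin ι S T w fr hD hext

end Pool.Agent.Results.MP_dd9835_nt.HolomorphRubin
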