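import Pool.Agent.Lib_helper17.CR.DefsF
import Pool.Agent.Lib_helper17.CRF.E_EI

/-!
# Integrality of rational Stark elements for abelian extensions of any degree
-/

namespace Pool.Agent.Results.MP_dd9835_nt.IntegralityAllGroups

open Pool.Agent Pool.Agent.RSK Pool.Agent.CR NumberField IsDedekindDomain

/-- Let `H/F` be an abelian extension of number fields of any degree, and `q` a prime such that
`AutAt` holds for all cyclic extensions `K/F` in `H`: the automorphisms of the prime-to-`q` part of
`Gal(K/F)` come from `x ↦ x ^ q` and from automorphisms of the field `K`. For every rational Stark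
element `u`, the elements `q ^ κ b u`, `b ∈ I_q ^ t`, lie in Rubin's lattice locally at `q` under
`CondE`, which holds for every `S` if `t ≥ mQ q G` or if `q ^ (κ + 1)` does not divide `#G`, and for
`κ = t = 0` if `S` is large. -/
theorem result {F H : Type} [Field F] [NumberField F] [Field H] [NumberField H] [Algebra F H]
    [IsGalois F H] {G : Type} [CommGroup G] [Fintype G] (ι : G ≃* (H ≃ₐ[F] H))
    (S T : Finset (HeightOneSpectrum (𝓞 F))) {r : ℕ} (w : Fin r → Pl H)
    (fr : HeightOneSpectrum (𝓞 F) → G) (hD : Data ι S T r w fr) {q κ t : ℕ} (hq : q.Prime)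
    (hA : ∀ N : Subgroup G, IsCyclic (G ⧸ N) → AutAt q F (Kf ι N))
    (hS : CondE q κ t ι S w) {b : MonoidAlgebra ℤ G} (hb : b ∈ augQ q G ^ t) :
    CRF.StarkMul q ((q : MonoidAlgebra ℤ G) ^ κ * b) ι S T w fr :=
  CRF.starkMul_of (alphaE ι S T w fr hD hq hA hS hb)

end Pool.Agent.Results.MP_dd9835_nt.IntegralityAllGroups
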