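import Pool.Agent.Lib_helper17.RS.P_FT
import Pool.Agent.Lib_helper17.RS.Stmt

/-!
# Rubin's conjecture for elementary abelian `p`-extensions of affine type
-/

namespace Pool.Agent.Results.MP_dd9835_nt.RubinElementary

open Pool.Agent.RSK NumberField IsDedekindDomain

/-- Rubin's conjecture holds for `(H/F, S, T, r)` if `p` is an odd prime, `H/F` is an elementary
abelian extension of degree `p ^ k`, every cyclic extension `K/F` of degree `p` inside `H` has an
automorphism `τ` with `τ ^ (p - 1) = 1` inducing a generator of the automorphism group of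
`Gal(K/F)`, and `#S ≥ r + 2 + (k - 1) (p - 1)`. -/
theorem result {F H : Type} [Field F] [NumberField F] [Field H] [NumberField H] [Algebra F H]
    [IsGalois F H] {G : Type} [CommGroup G] [Fintype G] (ι : G ≃* (H ≃ₐ[F] H))
    (S T : Finset (HeightOneSpectrum (𝓞 F))) {r : ℕ} (w : Fin r → Pl H)
    (fr : HeightOneSpectrum (𝓞 F) → G) (hD : Data ι S T r w fr)
    {p : ℕ} (hp : p.Prime) (hp2 : p ≠ 2) {k : ℕ} (hG : Nat.card G = p ^ k)
    (hexp : ∀ g : G, g ^ p = 1)
    (hτ : ∀ N : Subgroup G, N.index = p → Aff p F (Kf ι N))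
    (hS : r + 2 + (k - 1) * (p - 1) ≤ Fintype.card (InfinitePlace F) + S.card) :
    Rubin ι S T w fr :=
  rubin_of ι S T w fr (rubin_elem hp hp2 hG hexp hτ hD hS)

end Pool.Agent.Results.MP_dd9835_nt.RubinElementary
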